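import Pool.Agent.Helper79.AL.St1

set_option autoImplicit false

namespace Pool.Agent.Helper86.AL

open Matrix ComplexConjugate Pool.Agent.Helper94.YG
open Pool.Agent.Helper94.YF hiding StORB
open Pool.Agent.Helper89.OS Pool.Agent.Helper89.OC
open Pool.Agent.Helper79.AL

/-- the subgroup of units which are `1` on the part `b` -/
private def Tg {L : ℕ} (b : ZMod L) : Subgroup (ZMod L)ˣ where
  carrier := {x | ((x : ZMod L) - 1) * b = 0}
  mul_mem' := by
    intro x y hx hy
    simp only [Set.mem_setOf_eq] at hx hy ⊢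
    rw [Units.val_mul]
    linear_combination hy * (x : ZMod L) + hx
  one_mem' := by simp
  inv_mem' := by
    intro x hx
    simp only [Set.mem_setOf_eq] at hx ⊢
    have h1 : ((x⁻¹ : (ZMod L)ˣ) : ZMod L) * (x : ZMod L) = 1 := by
      rw [← Units.val_mul]; simp
    linear_combination (-((x⁻¹ : (ZMod L)ˣ) : ZMod L)) * hx + b * h1

private lemma Dg_mul' {L : ℕ} (x y : (ZMod L)ˣ) : (Dg (x * y) : SL L) = Dg x * Dg y := by
  ext i j
  fin_cases i <;> fin_cases j <;>
    simp [Dg, Matrix.mul_apply, Fin.sum_univ_two, mul_comm]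

private lemma Dg_one' {L : ℕ} : (Dg 1 : SL L) = 1 := by
  ext i j
  fin_cases i <;> fin_cases j <;> simp [Dg]

theorem hUNQ : StUNQ := by
  intro hGAZ hSRU hETA hDZ hGLA hFCA I _ _ Z p b X e hLq hp5 he hy j' hj'
  classical
  have hF := hFCA I Z
  obtain ⟨hsymm, hzt, hsumd, hrow, hsqd⟩ := hSRU hFCA I Z p b X hLq
  have heta := hETA hDZ hGLA hFCA I Z p b X hLq hp5
  have hM := Helper39.OS.hMZZ I p X
  choose π hπbij hπ hπo hπd hπS hπt hπs hπs' using hF.perm
  obtain ⟨hgal, hex⟩ := hGAZ I Z p b X hLq π hπ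
  haveI : NeZero Z.L := ⟨Z.L_pos.ne'⟩
  haveI : Finite (ZMod Z.L)ˣ := inferInstance
  haveI : Fintype (Tg b) := Fintype.ofFinite _
  have hX : X.t = Z.tw b := hLq.lk.t
  -- multiplicativity
  have hmul : ∀ x y i, π (x * y) i = π x (π y i) := by
    intro x y i
    have h1 : Z.rho (Dg (y * x)) = Z.rho (Dg y) * Z.rho (Dg x) := by
      rw [Dg_mul', map_mul]
    have h2 := congrFun (congrFun h1 i) (π (y * x) i)
    rw [Matrix.mul_apply, hπ, if_pos rfl] at h2
    simp only [hπ] at h2
    simp only [ite_mul, one_mul, zero_mul, Finset.sum_ite_eq', Finset.mem_univ, if_true] at h2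
    rw [mul_comm x y]
    by_contra hne
    rw [if_neg hne] at h2
    exact one_ne_zero h2
  have hone : ∀ i, π 1 i = i := by
    intro i
    have h2 := hπ 1 i i
    rw [Dg_one', map_one, Matrix.one_apply_eq] at h2
    by_contra hne
    rw [if_neg (fun h => hne h.symm)] at h2
    exact one_ne_zero h2
  set ζ := X.t j' with hζ
  have hζp : ζ ^ p = 1 := by
    have := X.t_pow j'
    rwa [pow_one] at this
  have htπ : ∀ x ∈ Tg b, ∀ i, X.t (π x i) = X.t i := by
    intro x hx i
    rw [hX]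
    exact hπt x b hx i
  letI act : MulAction (Tg b) {k : I // X.t k = ζ} :=
    { smul := fun x k => ⟨π x.1 k.1, by rw [htπ x.1 x.2]; exact k.2⟩
      one_smul := fun k => Subtype.ext (hone k.1)
      mul_smul := fun x y k => Subtype.ext (hmul x.1 y.1 k.1) }
  have hsm : ∀ (x : Tg b) (k : {k : I // X.t k = ζ}), (x • k).1 = π x.1 k.1 := fun _ _ => rfl
  have hdpos : ∀ k, (0 : ℝ) < (Z.d k : ℝ) := fun k => by exact_mod_cast Z.d_pos k
  have hdne : ∀ k, (Z.d k : ℂ) ≠ 0 := fun k => by exact_mod_cast (Z.d_pos k).ne'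
  have heC : (e : ℂ) ^ 2 = 1 := by exact_mod_cast he
  have heR : (e : ℝ) ^ 2 = 1 := by exact_mod_cast he
  have hene : (e : ℂ) ≠ 0 := by
    intro h0
    rw [h0] at heC
    norm_num at heC
  have key := Pool.Agent.Helper4.SQ.local_units
    (J := {j : I // X.t j = ζ ∧ X.y j ≠ 0}) (K := {k : I // X.t k = ζ}) (G := Tg b)
    (fun k => (Z.d k.1 : ℝ) ^ 2) (fun k => by have := hdpos k.1; positivity)
    (fun c k => by
      simp only [hsm]
      rw [hπd])
    (fun j k => zz Z b X j.1 k.1 / Z.d k.1)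
    (fun j k => (heta j.1 k.1 (by rw [k.2]; exact hj')).2)
    (fun σ => by
      obtain ⟨x, hx, hσ⟩ := hgal σ
      refine ⟨⟨x, hx⟩, fun j k => ?_⟩
      simp only [hsm]
      rw [map_div₀, hσ, map_natCast, hπd])
    (fun c => by
      obtain ⟨σ, hσ⟩ := hex c.1 c.2
      refine ⟨σ, fun j k => ?_⟩
      simp only [hsm]
      rw [map_div₀, hσ, map_natCast, hπd])
    (e : ℂ) hene
    (fun k => by
      have h1 := hsumd k.1
      have h2 : ∑ j, zz Z b X j k.1 * (X.y j : ℂ) =
          ∑ j : {j : I // X.t j = ζ ∧ X.y j ≠ 0}, zz Z b X j.1 k.1 * (e : ℂ) := by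
        rw [← Finset.sum_subtype (Finset.univ.filter fun j => X.t j = ζ ∧ X.y j ≠ 0)
          (fun j => by simp) (fun j => zz Z b X j k.1 * (e : ℂ))]
        rw [Finset.sum_filter]
        refine Finset.sum_congr rfl fun j _ => ?_
        split_ifs with h
        · rw [hy j h.2 (by rw [h.1]; exact hj')]
        · by_cases hz : zz Z b X j k.1 = 0
          · rw [hz, zero_mul]
          · have ht := hzt j k.1 hz
            have hyj : X.y j = 0 := by
              by_contra hne
              exact h ⟨by rw [ht, k.2], hne⟩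
            rw [hyj]; simp
      rw [h2, ← Finset.sum_mul] at h1
      rw [← Finset.sum_div, div_eq_iff (hdne k.1), ← h1]
      linear_combination (-(∑ j : {j : I // X.t j = ζ ∧ X.y j ≠ 0}, zz Z b X j.1 k.1)) * heC)
    (by
      -- the weighted sum of squares
      have h1 : ∀ k : {k : I // X.t k = ζ}, (Z.d k.1 : ℝ) ^ 2 *
          ∑ j : {j : I // X.t j = ζ ∧ X.y j ≠ 0}, ‖zz Z b X j.1 k.1 / Z.d k.1‖ ^ 2 =
          ∑ j : {j : I // X.t j = ζ ∧ X.y j ≠ 0}, ‖zz Z b X j.1 k.1‖ ^ 2 := by
        intro k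
        rw [Finset.mul_sum]
        refine Finset.sum_congr rfl fun j _ => ?_
        rw [norm_div, Complex.norm_natCast, div_pow]
        have := (hdpos k.1).ne'
        field_simp
      simp only [h1]
      rw [Finset.sum_comm]
      have h3 : ∀ j : {j : I // X.t j = ζ ∧ X.y j ≠ 0},
          ∑ k : {k : I // X.t k = ζ}, ‖zz Z b X j.1 k.1‖ ^ 2 ≤ (X.m : ℝ) ^ 2 := by
        intro j
        rw [← hrow j.1]
        rw [← Finset.sum_subtype (Finset.univ.filter fun k => X.t k = ζ)
          (fun k => by simp) (fun k => ‖zz Z b X j.1 k‖ ^ 2)]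
        exact Finset.sum_le_sum_of_subset_of_nonneg (Finset.subset_univ _)
          fun _ _ _ => by positivity
      have h4 : ∑ k : {k : I // X.t k = ζ}, (Z.d k.1 : ℝ) ^ 2 =
          (X.m : ℝ) ^ 2 * (gX X : ℝ) := by
        rw [← Finset.sum_subtype (Finset.univ.filter fun k => X.t k = ζ)
          (fun k => by simp) (fun k => (Z.d k : ℝ) ^ 2), Finset.sum_filter]
        exact hsqd ζ hj' hζp
      have h5 : ((Fintype.card {j : I // X.t j = ζ ∧ X.y j ≠ 0} : ℕ) : ℝ) = (gX X : ℝ) := by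
        have h6 := hM.1 ζ hj' hζp
        have h7 : ((Fintype.card {j : I // X.t j = ζ ∧ X.y j ≠ 0} : ℕ) : ℤ) = gX X := by
          unfold gX
          rw [← h6, Fintype.card_subtype, Finset.card_filter, Nat.cast_sum]
          refine Finset.sum_congr rfl fun j _ => ?_
          by_cases ht : X.t j = ζ
          · by_cases hyj : X.y j = 0
            · simp [ht, hyj]
            · rw [if_pos ⟨ht, hyj⟩, if_pos ht, hy j hyj (by rw [ht]; exact hj'), he]
              rfl
          · simp [ht]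
        exact_mod_cast h7
      rw [h4]
      calc ∑ j : {j : I // X.t j = ζ ∧ X.y j ≠ 0},
            ∑ k : {k : I // X.t k = ζ}, ‖zz Z b X j.1 k.1‖ ^ 2
          ≤ ∑ _j : {j : I // X.t j = ζ ∧ X.y j ≠ 0}, (X.m : ℝ) ^ 2 :=
            Finset.sum_le_sum fun j _ => h3 j
        _ = (X.m : ℝ) ^ 2 * (gX X : ℝ) := by
            rw [Finset.sum_const, Finset.card_univ, nsmul_eq_mul, h5, mul_comm])
    ⟨j', rfl⟩
  obtain ⟨j, hj1, hj2⟩ := key
  refine ⟨j.1, j.2.2, j.2.1, ?_, ?_⟩
  · intro h0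
    simp only [h0, zero_div] at hj1
    exact hene hj1.symm
  · intro k hk hzk
    by_contra hne
    have ht : X.t k = ζ := hzt k j' hzk
    have h1 := hj2 ⟨k, ht, hk⟩ (fun h => hne (congrArg Subtype.val h))
    simp only at h1
    rcases div_eq_zero_iff.mp h1 with h | h
    · exact hzk h
    · exact hdne j' h

end Pool.Agent.Helper86.AL
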